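import Mathlib
import Pool.Agent.Helper916.CE.Core

set_option autoImplicit false

namespace Pool.Agent.Results.MP_34b234_co.ConjectureFalse

open Pool.Agent.Helper916.CE

/-- `f` is a Costas permutation of order `n`: the displacement vectors `(j - i, f j - f i)`,
`i < j`, are pairwise distinct. (Positions and values are numbered from `0` to `n - 1`.) -/
def IsCostas {n : ℕ} (f : Equiv.Perm (Fin n)) : Prop :=
  ∀ i j k l : Fin n, i < j → k < l → ((j : ℕ) : ℤ) - (i : ℕ) = ((l : ℕ) : ℤ) - (k : ℕ) →
    ((f j : ℕ) : ℤ) - (f i : ℕ) = ((f l : ℕ) : ℤ) - (f k : ℕ) → i = k ∧ j = l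

/-- for every choice `v` of values on the set `I` of positions there is at most one Costas
permutation of order `n` with these values on `I` -/
def Determining {n : ℕ} (I : Finset (Fin n)) : Prop :=
  ∀ v : Fin n → Fin n, ∀ f g : Equiv.Perm (Fin n), IsCostas f → IsCostas g →
    (∀ i ∈ I, f i = v i) → (∀ i ∈ I, g i = v i) → f = g

/-- the degrees of freedom `k(n)`: the least `k`, `1 ≤ k ≤ n`, such that some `k` positions are
determining -/
noncomputable def degreesOfFreedom (n : ℕ) : ℕ :=
  sInf {k : ℕ | 1 ≤ k ∧ k ≤ n ∧ ∃ I : Finset (Fin n), I.card = k ∧ Determining I}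

/-- the permutation of `Fin 8190` given by a function on `{1, ..., 8190}` -/
noncomputable def toFun' (f : ℕ → ℕ) (hf : IsC f) (i : Fin 8190) : Fin 8190 :=
  ⟨f (i.val + 1) - 1, by
    have := hf.rg (i.val + 1) (by omega) (by have := i.isLt; omega)
    omega⟩

theorem toFun'_inj (f : ℕ → ℕ) (hf : IsC f) : Function.Injective (toFun' f hf) := by
  intro i j h
  have h1 : f (i.val + 1) - 1 = f (j.val + 1) - 1 := congrArg Fin.val h
  have hi := i.isLt
  have hj := j.isLt
  have h2 := hf.rg (i.val + 1) (by omega) (by omega)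
  have h3 := hf.rg (j.val + 1) (by omega) (by omega)
  have h4 := hf.inj (i.val + 1) (j.val + 1) (by omega) (by omega) (by omega) (by omega) (by omega)
  exact Fin.ext (by omega)

noncomputable def toPerm (f : ℕ → ℕ) (hf : IsC f) : Equiv.Perm (Fin 8190) :=
  Equiv.ofBijective (toFun' f hf) (Finite.injective_iff_bijective.1 (toFun'_inj f hf))

theorem toPerm_val (f : ℕ → ℕ) (hf : IsC f) (i : Fin 8190) :
    ((toPerm f hf i : Fin 8190) : ℕ) + 1 = f (i.val + 1) := by
  have hi := i.isLt
  have h2 := hf.rg (i.val + 1) (by omega) (by omega)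
  change f (i.val + 1) - 1 + 1 = _
  omega

theorem toPerm_costas (f : ℕ → ℕ) (hf : IsC f) : IsCostas (toPerm f hf) := by
  intro i j k l hij hkl h1 h2
  have hi := i.isLt
  have hj := j.isLt
  have hk := k.isLt
  have hl := l.isLt
  have hij' : i.val < j.val := hij
  have hkl' : k.val < l.val := hkl
  have e1 := toPerm_val f hf i
  have e2 := toPerm_val f hf j
  have e3 := toPerm_val f hf k
  have e4 := toPerm_val f hf l
  have h3 := hf.cos (i.val + 1) (k.val + 1) (j.val - i.val) (by omega) (by omega) (by omega)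
    (by omega) (by omega) (by
      have g1 : i.val + 1 + (j.val - i.val) = j.val + 1 := by omega
      have g2 : k.val + 1 + (j.val - i.val) = l.val + 1 := by omega
      rw [g1, g2]
      omega)
  exact ⟨Fin.ext (by omega), Fin.ext (by omega)⟩

theorem not_determining (I : Finset (Fin 8190)) (hI : I.card ≤ 3) : ¬ Determining I := by
  intro hdet
  obtain ⟨J, hIJ, hJ⟩ := Finset.exists_superset_card_eq (s := I) (n := 3) hI (by simp)
  obtain ⟨x, y, z, hxy, hxz, hyz, rfl⟩ := Finset.card_eq_three.1 hJ
  have hx := x.isLt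
  have hy := y.isLt
  have hz := z.isLt
  have nxy : x.val ≠ y.val := fun h => hxy (Fin.ext h)
  have nxz : x.val ≠ z.val := fun h => hxz (Fin.ext h)
  have nyz : y.val ≠ z.val := fun h => hyz (Fin.ext h)
  obtain ⟨f, g, hf, hg, h1, h2, h3, w, hw1, hw2, hw3⟩ :=
    coll_all (x.val + 1) (y.val + 1) (z.val + 1) (by omega) (by omega) (by omega) (by omega)
      (by omega) (by omega)
  have hval : ∀ i : Fin 8190, f (i.val + 1) = g (i.val + 1) → toPerm f hf i = toPerm g hg i := by
    intro i hi
    apply Fin.ext
    have e1 := toPerm_val f hf i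
    have e2 := toPerm_val g hg i
    omega
  have heq := hdet (fun i => toPerm f hf i) (toPerm f hf) (toPerm g hg) (toPerm_costas f hf)
    (toPerm_costas g hg) (fun _ _ => rfl) (by
      intro i hi
      have hiJ := hIJ hi
      simp only [Finset.mem_insert, Finset.mem_singleton] at hiJ
      rcases hiJ with rfl | rfl | rfl
      · exact (hval _ h1).symm
      · exact (hval _ h2).symm
      · exact (hval _ h3).symm)
  have e1 := toPerm_val f hf ⟨w - 1, by omega⟩
  have e2 := toPerm_val g hg ⟨w - 1, by omega⟩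
  rw [heq] at e1
  have e3 : w - 1 + 1 = w := by omega
  simp only [e3] at e1 e2
  exact hw3 (e1.symm.trans e2)

theorem result : 4 ≤ degreesOfFreedom 8190 ∧ ¬ ∀ n : ℕ, 24 ≤ n → degreesOfFreedom n = 3 := by
  have h : 4 ≤ degreesOfFreedom 8190 := by
    unfold degreesOfFreedom
    apply le_csInf
    · refine ⟨8190, by norm_num, le_rfl, Finset.univ, by simp, ?_⟩
      intro v f g _ _ h1 h2
      ext i
      rw [h1 i (Finset.mem_univ _), h2 i (Finset.mem_univ _)]
    · rintro k ⟨_, _, I, hI, hdet⟩
      by_contra hk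
      exact not_determining I (by omega) hdet
  refine ⟨h, fun hall => ?_⟩
  have := hall 8190 (by norm_num)
  omega

end Pool.Agent.Results.MP_34b234_co.ConjectureFalse
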